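import Pool.Agent.U451.HS.Main

/-!
# Hot-spot sets under delta conditions are finite or uncountable

For every compact metric graph and all strengths of the delta conditions at the vertices, the set of
the points at which some second eigenfunction attains its global maximum or global minimum is finite
or uncountable. This answers Q2 of the problem in the negative.
-/

set_option autoImplicit false

namespace Pool.Agent.Results.MP_1debac_an.FiniteOrUncountable

open Pool.Agent.R228.QG

/-- The hot-spot set of a compact metric graph with delta vertex conditions is never countably
infinite. -/
theorem result (V E : Type) [Fintype V] [Fintype E] [DecidableEq V] (Γ : MGraph V E)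
    (α : V → ℝ) : (hotSet Γ α).Finite ∨ ¬ (hotSet Γ α).Countable := by
  by_cases h : (hotSet Γ α).Countable
  · exact Or.inl (Pool.Agent.U451.HS.main Γ α h)
  · exact Or.inr h

end Pool.Agent.Results.MP_1debac_an.FiniteOrUncountable
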